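import Mathlib

set_option autoImplicit false

namespace Pool.Agent.Results.MP_c4d24c_al.NotTwoSided

/-- the principal left ideal `H x` -/
def leftIdeal {H : Type*} [Monoid H] (x : H) : Set H := {y | ∃ h, y = h * x}

/-- the principal right ideal `x H` -/
def rightIdeal {H : Type*} [Monoid H] (x : H) : Set H := {y | ∃ h, y = x * h}

/-- the principal two-sided ideal `H x H` -/
def twoSidedIdeal {H : Type*} [Monoid H] (x : H) : Set H := {y | ∃ h k, y = h * x * k}

/-- every ascending chain of principal left ideals is eventually constant -/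
def ACCPL (H : Type*) [Monoid H] : Prop :=
  ∀ x : ℕ → H, (∀ n, leftIdeal (x n) ⊆ leftIdeal (x (n + 1))) →
    ∃ N, ∀ n, N ≤ n → leftIdeal (x n) = leftIdeal (x N)

/-- every ascending chain of principal right ideals is eventually constant -/
def ACCPR (H : Type*) [Monoid H] : Prop :=
  ∀ x : ℕ → H, (∀ n, rightIdeal (x n) ⊆ rightIdeal (x (n + 1))) →
    ∃ N, ∀ n, N ≤ n → rightIdeal (x n) = rightIdeal (x N)

/-- every ascending chain of principal two-sided ideals is eventually constant -/
def ACCP (H : Type*) [Monoid H] : Prop :=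
  ∀ x : ℕ → H, (∀ n, twoSidedIdeal (x n) ⊆ twoSidedIdeal (x (n + 1))) →
    ∃ N, ∀ n, N ≤ n → twoSidedIdeal (x n) = twoSidedIdeal (x N)

/-- the underlying set of the counterexample -/
inductive W where
  | act (a b c d : ℕ) : W
  | pt (m : ℤ) (p q : ℕ) : W
  | zero : W

namespace W

/-- the multiplication -/
def mul : W → W → W
  | act a b c d, act a' b' c' d' =>
      act (a' + (a - b')) (b + (b' - a)) (c + (c' - d)) ((d - c') + d')
  | act a b _ _, pt m p q => pt (m - ((a - p : ℕ) : ℤ)) ((p - a) + b) (q + (a - p))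
  | pt m p q, act _ _ c d => pt (m - ((c - q : ℕ) : ℤ)) (p + (c - q)) ((q - c) + d)
  | pt _ _ _, pt _ _ _ => zero
  | zero, _ => zero
  | _, zero => zero

instance : Mul W := ⟨mul⟩

instance : One W := ⟨act 0 0 0 0⟩

theorem one_def : (1 : W) = act 0 0 0 0 := rfl

@[simp] theorem act_act (a b c d a' b' c' d' : ℕ) : act a b c d * act a' b' c' d' =
    act (a' + (a - b')) (b + (b' - a)) (c + (c' - d)) ((d - c') + d') := rfl
@[simp] theorem act_pt (a b c d : ℕ) (m : ℤ) (p q : ℕ) : act a b c d * pt m p q =
    pt (m - ((a - p : ℕ) : ℤ)) ((p - a) + b) (q + (a - p)) := rfl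
@[simp] theorem pt_act (a b c d : ℕ) (m : ℤ) (p q : ℕ) : pt m p q * act a b c d =
    pt (m - ((c - q : ℕ) : ℤ)) (p + (c - q)) ((q - c) + d) := rfl
@[simp] theorem pt_pt (m : ℤ) (p q : ℕ) (m' : ℤ) (p' q' : ℕ) : pt m p q * pt m' p' q' = zero := rfl
@[simp] theorem zero_mul' (x : W) : zero * x = zero := by cases x <;> rfl
@[simp] theorem mul_zero' (x : W) : x * zero = zero := by cases x <;> rfl

instance : Monoid W where
  mul_assoc := by
    intro x y z
    cases x with
    | zero => simp
    | pt m p q =>
      cases y with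
      | zero => simp
      | pt m' p' q' => cases z <;> simp
      | act a b c d =>
        cases z with
        | zero => simp
        | pt m' p' q' => simp
        | act a' b' c' d' =>
          simp only [pt_act, act_act, pt.injEq]
          omega
    | act a b c d =>
      cases y with
      | zero => simp
      | pt m' p' q' =>
        cases z with
        | zero => simp
        | pt m p q => simp
        | act a' b' c' d' =>
          simp only [pt_act, act_pt, pt.injEq]
          omega
      | act a' b' c' d' =>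
        cases z with
        | zero => simp
        | pt m p q =>
          simp only [act_act, act_pt, pt.injEq]
          omega
        | act a'' b'' c'' d'' =>
          simp only [act_act, act.injEq]
          omega
  one_mul := by
    intro x
    rw [one_def]
    cases x <;> simp
  mul_one := by
    intro x
    rw [one_def]
    cases x <;> simp

/-- the potential for the left ideals -/
def potL : W → ℕ ×ₗ ℕ
  | act a _ _ d => toLex (0, a + d)
  | pt _ _ q => toLex (1, q)
  | zero => toLex (2, 0)

/-- the potential for the right ideals -/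
def potR : W → ℕ ×ₗ ℕ
  | act _ b c _ => toLex (0, b + c)
  | pt _ p _ => toLex (1, p)
  | zero => toLex (2, 0)

theorem potL_le (h x : W) : potL x ≤ potL (h * x) := by
  cases h <;> cases x <;>
    simp [potL, Prod.Lex.toLex_le_toLex] <;>
    omega

theorem potR_le (h x : W) : potR x ≤ potR (x * h) := by
  cases h <;> cases x <;>
    simp [potR, Prod.Lex.toLex_le_toLex] <;>
    omega

theorem back_left (h x : W) (e : potL (h * x) = potL x) : ∃ k, x = k * (h * x) := by
  cases x with
  | zero => exact ⟨1, by simp⟩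
  | pt m p q =>
    cases h with
    | zero => simp [potL] at e
    | pt m' p' q' => simp [potL] at e
    | act a b c d =>
      simp only [act_pt, potL, EmbeddingLike.apply_eq_iff_eq, Prod.mk.injEq, true_and] at e
      refine ⟨act ((p - a) + b) p 0 0, ?_⟩
      simp only [act_pt, pt.injEq]
      omega
  | act a b c d =>
    cases h with
    | zero => simp [potL] at e
    | pt m' p' q' => simp [potL] at e
    | act a' b' c' d' =>
      simp only [act_act, potL, EmbeddingLike.apply_eq_iff_eq, Prod.mk.injEq, true_and] at e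
      refine ⟨act (b' + (b - a')) b c (c' + (c - d')), ?_⟩
      simp only [act_act, act.injEq]
      omega

theorem back_right (h x : W) (e : potR (x * h) = potR x) : ∃ k, x = (x * h) * k := by
  cases x with
  | zero => exact ⟨1, by simp⟩
  | pt m p q =>
    cases h with
    | zero => simp [potR] at e
    | pt m' p' q' => simp [potR] at e
    | act a b c d =>
      simp only [pt_act, potR, EmbeddingLike.apply_eq_iff_eq, Prod.mk.injEq, true_and] at e
      refine ⟨act 0 0 ((q - c) + d) q, ?_⟩
      simp only [pt_act, pt.injEq]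
      omega
  | act a b c d =>
    cases h with
    | zero => simp [potR] at e
    | pt m' p' q' => simp [potR] at e
    | act a' b' c' d' =>
      simp only [act_act, potR, EmbeddingLike.apply_eq_iff_eq, Prod.mk.injEq, true_and] at e
      refine ⟨act a (a' + (a - b')) ((d - c') + d') d, ?_⟩
      simp only [act_act, act.injEq]
      omega

/-- an eventually constant potential -/
theorem eventually_const (f : ℕ → ℕ ×ₗ ℕ) (hf : ∀ n, f (n + 1) ≤ f n) :
    ∃ N, ∀ n, N ≤ n → f n = f N := by
  have hanti : Antitone f := antitone_nat_of_succ_le hf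
  obtain ⟨N, hN⟩ := (WellFounded.has_min (wellFounded_lt (α := ℕ ×ₗ ℕ)) (Set.range f) ⟨_, 0, rfl⟩)
  obtain ⟨⟨M, rfl⟩, hmin⟩ := hN
  refine ⟨M, fun n hn => ?_⟩
  exact le_antisymm (hanti hn) (not_lt.1 (hmin _ ⟨n, rfl⟩))

theorem self_mem_left (x : W) : x ∈ leftIdeal x := ⟨1, (one_mul x).symm⟩
theorem self_mem_right (x : W) : x ∈ rightIdeal x := ⟨1, (mul_one x).symm⟩

theorem accpl : ACCPL W := by
  intro x hx
  have hmem : ∀ n, ∃ h, x n = h * x (n + 1) := fun n => hx n (self_mem_left _)
  obtain ⟨N, hN⟩ := eventually_const (fun n => potL (x n)) (by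
    intro n
    obtain ⟨h, hh⟩ := hmem n
    show potL (x (n + 1)) ≤ potL (x n)
    rw [hh]
    exact potL_le _ _)
  refine ⟨N, fun n hn => ?_⟩
  induction n, hn using Nat.le_induction with
  | base => rfl
  | succ n hn ih =>
    rw [← ih]
    apply Set.Subset.antisymm
    · obtain ⟨h, hh⟩ := hmem n
      obtain ⟨k, hk⟩ := back_left h (x (n + 1)) (by
        rw [← hh]
        exact (hN n hn).trans (hN (n + 1) (by omega)).symm)
      rw [← hh] at hk
      rintro _ ⟨y, rfl⟩
      exact ⟨y * k, by rw [mul_assoc, ← hk]⟩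
    · exact hx n

theorem accpr : ACCPR W := by
  intro x hx
  have hmem : ∀ n, ∃ h, x n = x (n + 1) * h := fun n => hx n (self_mem_right _)
  obtain ⟨N, hN⟩ := eventually_const (fun n => potR (x n)) (by
    intro n
    obtain ⟨h, hh⟩ := hmem n
    show potR (x (n + 1)) ≤ potR (x n)
    rw [hh]
    exact potR_le _ _)
  refine ⟨N, fun n hn => ?_⟩
  induction n, hn using Nat.le_induction with
  | base => rfl
  | succ n hn ih =>
    rw [← ih]
    apply Set.Subset.antisymm
    · obtain ⟨h, hh⟩ := hmem n
      obtain ⟨k, hk⟩ := back_right h (x (n + 1)) (by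
        rw [← hh]
        exact (hN n hn).trans (hN (n + 1) (by omega)).symm)
      rw [← hh] at hk
      rintro _ ⟨y, rfl⟩
      exact ⟨k * y, by rw [← mul_assoc, ← hk]⟩
    · exact hx n

theorem level (h k : W) (m : ℤ) (p q : ℕ) (m' : ℤ) (p' q' : ℕ)
    (e : pt m' p' q' = h * pt m p q * k) : m' ≤ m := by
  cases h <;> cases k <;> simp at e
  omega

theorem strict (n : ℕ) : twoSidedIdeal (pt (n : ℤ) 0 0) ⊂ twoSidedIdeal (pt ((n + 1 : ℕ) : ℤ) 0 0) := by
  have h1 : pt (n : ℤ) 0 0 = act 1 0 0 0 * pt ((n + 1 : ℕ) : ℤ) 0 0 * act 0 0 1 0 := by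
    simp
  refine ⟨?_, ?_⟩
  · rintro _ ⟨h, k, rfl⟩
    refine ⟨h * act 1 0 0 0, act 0 0 1 0 * k, ?_⟩
    rw [h1]
    simp only [mul_assoc]
  · intro hle
    obtain ⟨h, k, hk⟩ := hle (show pt ((n + 1 : ℕ) : ℤ) 0 0 ∈ _ from ⟨1, 1, by simp⟩)
    have := level h k _ _ _ _ _ _ hk
    push_cast at this
    omega

end W

/-- There is a monoid which satisfies the ascending chain conditions on principal left ideals and
on principal right ideals, and has a strictly ascending infinite chain of principal two-sided
ideals. -/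
theorem result : ∃ (H : Type) (_ : Monoid H), ACCPL H ∧ ACCPR H ∧ ¬ ACCP H ∧
    ∃ x : ℕ → H, ∀ n, twoSidedIdeal (x n) ⊂ twoSidedIdeal (x (n + 1)) := by
  refine ⟨W, inferInstance, W.accpl, W.accpr, ?_, fun n => W.pt (n : ℤ) 0 0, W.strict⟩
  intro h
  obtain ⟨N, hN⟩ := h (fun n => W.pt (n : ℤ) 0 0) (fun n => (W.strict n).1)
  exact (W.strict N).ne (hN (N + 1) (by omega)).symm

end Pool.Agent.Results.MP_c4d24c_al.NotTwoSided
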